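import Pool.Agent.Helper12.TS.StB
import Pool.Agent.Helper51.AJ.Basic

set_option autoImplicit false

/-!
Module APC of the project TS (MP_d63854_co): case alpha, last splitting.
-/

namespace Pool.Agent.Helper4.TS

open Pool.Agent.Helper12.TS
open Pool.Agent.Helper51.AJ (IsMinor Planar Apex ExMinor Con Tch)
open Pool.Agent.Helper12.NK (rst Kc add)

/-- data of the last splitting -/
private structure Dat {V : Type} (G : SimpleGraph V) (A T : Set V) (s : V) (ρ : V → V) : Prop where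
  dis : Disjoint A T
  sA : s ∉ A
  sT : s ∉ T
  rtr : Rtr G A T ρ
  uu : Uu G A T ρ
  two : T.ncard = 2

private lemma Dat.other {V : Type} [Finite V] {G : SimpleGraph V} {A T : Set V} {s : V} {ρ : V → V}
    (d : Dat G A T s ρ) {t : V} (ht : t ∈ T) : ∃ t' ∈ T, t' ≠ t ∧ ∀ x ∈ T, x = t ∨ x = t' := by
  obtain ⟨a, b, hab, hT⟩ := Set.ncard_eq_two.1 d.two
  rw [hT] at ht ⊢
  rcases ht with rfl | ht
  · exact ⟨b, by simp, hab.symm, fun x hx => by simpa using hx⟩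
  · have ht' : t = b := by simpa using ht
    subst ht'
    refine ⟨a, by simp, hab, fun x hx => ?_⟩
    rcases hx with rfl | hx
    · exact Or.inr rfl
    · exact Or.inl (by simpa using hx)

private lemma Dat.part {V : Type} {G : SimpleGraph V} {A T : Set V} {s : V} {ρ : V → V}
    (d : Dat G A T s ρ) {x : V} (hx : x ∈ A ∪ T) (hT : ρ x ∉ T) : x ∈ Zz A ρ := by
  rcases hx with hx | hx
  · refine ⟨hx, ?_⟩
    rcases d.rtr.inn x hx with h | h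
    · exact h
    · exact absurd h hT
  · exact absurd (by rw [d.rtr.off x fun h => d.dis.le_bot ⟨h, hx⟩]; exact hx) hT

/-- first case -/
private lemma case_one {V : Type} [Finite V] (hQ : StQUO) {G : SimpleGraph V} {A T : Set V} {s : V}
    {ρ : V → V} (d : Dat G A T s ρ) (hN : ∃ x ∈ A, G.Adj s x)
    (hT : ∀ t ∈ T, ∃ x ∈ A, G.Adj s x ∧ ρ x ≠ t)
    (hno : ∀ r ∈ A, ∃ x ∈ A, G.Adj s x ∧ ρ x ≠ r) :
    (∀ t ∈ T, Lk (quo G Set.univ ρ) (Rr A ρ) s t) ∧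
    (∀ r, ∃ t ∈ T, Lk (quo G Set.univ ρ) (Rr A ρ \ {r}) s t) := by
  obtain ⟨-, -, -, -, -, q6, q7, -, -⟩ := hQ V G Set.univ ρ
  refine ⟨fun t ht => ?_, fun r => ?_⟩
  · obtain ⟨t', ht', hne, hcov⟩ := d.other ht
    obtain ⟨x, hxA, hsx, hx⟩ := hT t' ht'
    refine q6 A T s t d.rtr d.sA d.sT ht d.dis ?_
    by_cases h : ρ x = t
    · exact Or.inl ⟨s, rfl, x, h, hsx⟩
    · have hxT : ρ x ∉ T := fun h' => by
        rcases hcov _ h' with h'' | h''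
        · exact h h''
        · exact hx h''
      obtain ⟨Z, hZ, hc, hxZ, htch⟩ := d.uu.1 x (d.part (Or.inl hxA) hxT) t ht
      exact Or.inr ⟨Z, hZ, hc, ⟨s, rfl, x, hxZ, hsx⟩, htch⟩
  · obtain ⟨x, hxA, hsx, hx⟩ : ∃ x ∈ A, G.Adj s x ∧ ρ x ≠ r := by
      by_cases h1 : r ∈ A
      · exact hno r h1
      by_cases h2 : r ∈ T
      · exact hT r h2
      obtain ⟨x, hxA, hsx⟩ := hN
      refine ⟨x, hxA, hsx, fun h => ?_⟩
      rcases d.rtr.inn x hxA with h' | h'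
      · exact h1 (h ▸ h')
      · exact h2 (h ▸ h')
    by_cases hxT : ρ x ∈ T
    · exact ⟨ρ x, hxT, q7 A T s (ρ x) r d.rtr d.sA d.sT hxT d.dis (Or.inl ⟨s, rfl, x, rfl, hsx⟩)⟩
    · obtain ⟨Z, hZ, hc, hxZ, z, hz, w, hw, hzw⟩ := d.uu.2 r x (d.part (Or.inl hxA) hxT) hx
      exact ⟨ρ w, hw, q7 A T s (ρ w) r d.rtr d.sA d.sT hw d.dis
        (Or.inr ⟨Z, hZ, hc, ⟨s, rfl, x, hxZ, hsx⟩, z, hz, w, rfl, hzw⟩)⟩

/-- the two parts of the fibre -/
private structure Spl {V : Type} (G : SimpleGraph V) (A T : Set V) (s : V) (ρ : V → V) (r₀ : V)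
    (X X₁ X₂ : Set V) : Prop where
  rA : r₀ ∈ A
  defX : ∀ z, z ∈ X ↔ ρ z = r₀
  XA : X ⊆ A
  rX : r₀ ∈ X
  un : X₁ ∪ X₂ = X
  dis : Disjoint X₁ X₂
  c1 : Con G X₁
  c2 : Con G X₂
  e2 : ∃ e ∈ X₂, ∃ y ∈ (A ∪ T) \ X, G.Adj e y
  n2 : ∃ n ∈ X₂, G.Adj s n

/-- links avoiding the first part -/
private lemma Spl.link {V : Type} {G : SimpleGraph V} {A T : Set V} {s : V} {ρ : V → V} {r₀ : V}
    {X X₁ X₂ : Set V} (d : Dat G A T s ρ) (h : Spl G A T s ρ r₀ X X₁ X₂) :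
    ∃ t ∈ T, ∃ Z ⊆ Zz A ρ, Disjoint Z X₁ ∧ Con G Z ∧ Tch G {s} Z ∧ Tch G Z {z | ρ z = t} := by
  obtain ⟨e, he, y, ⟨hyAT, hyX⟩, hey⟩ := h.e2
  obtain ⟨n, hn, hsn⟩ := h.n2
  have hX2 : X₂ ⊆ Zz A ρ := by
    intro z hz
    have hzX : z ∈ X := h.un ▸ Or.inr hz
    exact ⟨h.XA hzX, by rw [(h.defX z).1 hzX]; exact h.rA⟩
  by_cases hyT : ρ y ∈ T
  · exact ⟨ρ y, hyT, X₂, hX2, h.dis.symm, h.c2, ⟨s, rfl, n, hn, hsn⟩, e, he, y, rfl, hey⟩
  · have hyZ := d.part hyAT hyT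
    obtain ⟨Z, hZ, hc, hyZ', z, hz, w, hw, hzw⟩ := d.uu.2 r₀ y hyZ fun h' => hyX ((h.defX y).2 h')
    refine ⟨ρ w, hw, X₂ ∪ Z, Set.union_subset hX2 fun z hz => (hZ hz).1, ?_, ?_, ?_, ?_⟩
    · rw [Set.disjoint_union_left]
      refine ⟨h.dis.symm, Set.disjoint_left.2 fun z hz hz' => (hZ hz).2 ?_⟩
      exact (h.defX z).1 (h.un ▸ Or.inl hz')
    · exact Pool.Agent.Helper51.AJ.con_union h.c2 hc ⟨e, he, y, hyZ', hey⟩
    · exact ⟨s, rfl, n, Or.inl hn, hsn⟩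
    · exact ⟨z, Or.inr hz, w, rfl, hzw⟩

theorem hAPC : StQUO → StCMP → StMEN → StAPC := by
  classical
  intro hQ hC hM V _ G S A s ρ hG hS hA hs hR hU hN hT
  have hAS : Disjoint A S := hA.1
  have hsA : s ∉ A := fun h => hAS.le_bot ⟨h, hs⟩
  have hsT : s ∉ S \ {s} := fun h => h.2 rfl
  have hAT : Disjoint A (S \ {s}) := hAS.mono_right Set.sdiff_subset
  have hT2 : (S \ {s}).ncard = 2 := by
    have := Set.ncard_sdiff_singleton_of_mem hs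
    omega
  have d : Dat G A (S \ {s}) s ρ := ⟨hAT, hsA, hsT, hR, hU, hT2⟩
  set T := S \ {s} with hTdef
  set N : Set V := {x | x ∈ A ∧ G.Adj s x} with hNdef
  have hNne : ∃ x ∈ A, G.Adj s x := by
    have : N.Nonempty := Set.nonempty_of_ncard_ne_zero (by omega)
    obtain ⟨x, hx⟩ := this
    exact ⟨x, hx.1, hx.2⟩
  by_cases hno : ∀ r ∈ A, ∃ x ∈ A, G.Adj s x ∧ ρ x ≠ r
  · obtain ⟨h1, h2⟩ := case_one hQ d hNne hT hno
    exact ⟨ρ, hR, fun x y h => h, Nat.le_succ _, h1, h2⟩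
  -- second case
  push Not at hno
  obtain ⟨r₀, hrA, hr⟩ := hno
  obtain ⟨n₀, hn₀A, hn₀⟩ := hNne
  have hρn₀ : ρ n₀ = r₀ := hr n₀ hn₀A hn₀
  have hρr₀ : ρ r₀ = r₀ := by
    have := hR.idp n₀
    rwa [hρn₀] at this
  set X : Set V := {z | ρ z = r₀} with hX
  have hXA : X ⊆ A := by
    intro z hz
    by_contra hzA
    have h1 := hR.off z hzA
    rw [hX, Set.mem_ofPred_eq, h1] at hz
    exact hzA (hz ▸ hrA)
  have hcX : Con G X := by
    have := hR.fib n₀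
    rwa [hρn₀] at this
  have hNX : N ⊆ X := fun z hz => hr z hz.1 hz.2
  set E : Set V := {x | x ∈ X ∧ ∃ y ∈ (A ∪ T) \ X, G.Adj x y} with hE
  obtain ⟨-, -, -, -, -, c6, -⟩ := hC V G S
  have hmen : ∀ v, ∃ T' ⊆ X \ {v}, Con G T' ∧ (T' ∩ N).Nonempty ∧ (T' ∩ E).Nonempty := by
    intro v
    obtain ⟨n, hn, hnv⟩ : ∃ n ∈ N, n ≠ v := Set.exists_ne_of_one_lt_ncard (by omega) v
    obtain ⟨c1, -⟩ := hC V G ((X \ {v})ᶜ)
    obtain ⟨M, ⟨hM1, hM2, hM3⟩, hnM⟩ := c1 n (by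
      rw [Set.notMem_compl_iff]
      exact ⟨hNX hn, hnv⟩)
    have hMX : M ⊆ X \ {v} := by
      intro z hz
      by_contra h
      exact hM1.le_bot ⟨hz, h⟩
    refine ⟨M, hMX, hM2, ⟨n, hnM, hn⟩, ?_⟩
    have hMA : M ⊆ A := fun z hz => hXA (hMX hz).1
    obtain ⟨x, hx, z, hz, hzv, hzs, hxz⟩ := c6 hG hS M (hAS.mono_left hMA) ⟨n, hnM⟩ v s
      (fun h => (hMX h).2 rfl) (fun h => hsA (hMA h))
    refine ⟨x, hx, (hMX hx).1, z, ⟨?_, ?_⟩, hxz⟩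
    · by_cases hzS : z ∈ S
      · exact Or.inr ⟨hzS, hzs⟩
      · exact Or.inl (hA.2.2 x (hMA hx) z hzS hxz)
    · intro hzX
      refine hz (hM3 x hx z ?_ hxz)
      rw [Set.notMem_compl_iff]
      exact ⟨hzX, hzv⟩
  obtain ⟨X₁, X₂, hun, hc1, hc2, hdis, ⟨x₁, hx₁, hx₁N⟩, ⟨e₁, he₁, he₁E⟩, ⟨x₂, hx₂, hx₂N⟩,
    ⟨e₂, he₂, he₂E⟩⟩ := hM V G X N E hcX hmen
  have hX1 : X₁ ⊆ X := hun ▸ Set.subset_union_left
  have hX2 : X₂ ⊆ X := hun ▸ Set.subset_union_right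
  have s12 : Spl G A T s ρ r₀ X X₁ X₂ := ⟨hrA, fun z => Iff.rfl, hXA, hρr₀, hun, hdis, hc1, hc2,
    ⟨e₂, he₂, he₂E.2⟩, ⟨x₂, hx₂, hx₂N.2⟩⟩
  have s21 : Spl G A T s ρ r₀ X X₂ X₁ := ⟨hrA, fun z => Iff.rfl, hXA, hρr₀,
    by rw [Set.union_comm]; exact hun, hdis.symm, hc2, hc1,
    ⟨e₁, he₁, he₁E.2⟩, ⟨x₁, hx₁, hx₁N.2⟩⟩
  have hx12 : x₁ ≠ x₂ := fun h => hdis.le_bot ⟨hx₁, h ▸ hx₂⟩
  have hρx₁ : ρ x₁ = r₀ := hX1 hx₁
  have hρx₂ : ρ x₂ = r₀ := hX2 hx₂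
  let ρ' : V → V := fun z => if z ∈ X₁ then x₁ else if z ∈ X₂ then x₂ else ρ z
  have r1 : ∀ z ∈ X₁, ρ' z = x₁ := fun z hz => if_pos hz
  have r2 : ∀ z ∈ X₂, ρ' z = x₂ := by
    intro z hz
    have h1 : z ∉ X₁ := fun h => hdis.le_bot ⟨h, hz⟩
    simp only [ρ', if_neg h1, if_pos hz]
  have r3 : ∀ z, z ∉ X → ρ' z = ρ z := by
    intro z hz
    have h1 : z ∉ X₁ := fun h => hz (hX1 h)
    have h2 : z ∉ X₂ := fun h => hz (hX2 h)
    simp only [ρ', if_neg h1, if_neg h2]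
  have split : ∀ z, z ∈ X₁ ∨ z ∈ X₂ ∨ z ∉ X := by
    intro z
    by_cases h : z ∈ X
    · rw [← hun] at h
      rcases h with h | h
      · exact Or.inl h
      · exact Or.inr (Or.inl h)
    · exact Or.inr (Or.inr h)
  -- elements of `X` are not values of `ρ` outside `X`
  have out : ∀ z, z ∉ X → ρ z ∉ X := by
    intro z hz h
    have h1 : ρ (ρ z) = r₀ := h
    rw [hR.idp] at h1
    exact hz h1
  have v1 : ∀ z, ρ' z = x₁ ↔ z ∈ X₁ := by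
    intro z
    refine ⟨fun h => ?_, r1 z⟩
    rcases split z with h' | h' | h'
    · exact h'
    · exact absurd ((r2 z h').symm.trans h) hx12.symm
    · rw [r3 z h'] at h
      exact absurd (h ▸ hX1 hx₁) (out z h')
  have v2 : ∀ z, ρ' z = x₂ ↔ z ∈ X₂ := by
    intro z
    refine ⟨fun h => ?_, r2 z⟩
    rcases split z with h' | h' | h'
    · exact absurd ((r1 z h').symm.trans h) hx12
    · exact h'
    · rw [r3 z h'] at h
      exact absurd (h ▸ hX2 hx₂) (out z h')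
  have v3 : ∀ z r, ρ' z = r → r ≠ x₁ → r ≠ x₂ → z ∉ X ∧ ρ z = r := by
    intro z r h h1 h2
    rcases split z with h' | h' | h'
    · exact absurd (h.symm.trans (r1 z h')) h1
    · exact absurd (h.symm.trans (r2 z h')) h2
    · exact ⟨h', (r3 z h').symm.trans h⟩
  have hZz : Zz A ρ' = Zz A ρ := by
    ext z
    constructor
    · rintro ⟨hz, hz'⟩
      refine ⟨hz, ?_⟩
      rcases split z with h' | h' | h'
      · have : ρ z = r₀ := hX1 h'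
        rw [this]; exact hrA
      · have : ρ z = r₀ := hX2 h'
        rw [this]; exact hrA
      · rwa [r3 z h'] at hz'
    · rintro ⟨hz, hz'⟩
      refine ⟨hz, ?_⟩
      rcases split z with h' | h' | h'
      · rw [r1 z h']; exact hXA (hX1 hx₁)
      · rw [r2 z h']; exact hXA (hX2 hx₂)
      · rwa [r3 z h']
  have hTp : ∀ t ∈ T, {z | ρ' z = t} = {z | ρ z = t} := by
    intro t ht
    have htX : ∀ x ∈ X, x ≠ t := fun x hx h => hAT.le_bot ⟨h ▸ hXA hx, ht⟩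
    ext z
    constructor
    · intro hz
      exact (v3 z t hz (fun h => htX x₁ (hX1 hx₁) h.symm) (fun h => htX x₂ (hX2 hx₂) h.symm)).2
    · intro hz
      have hz' : ρ z = t := hz
      have hzX : z ∉ X := by
        intro h
        have h1 : ρ z = r₀ := h
        exact htX r₀ hρr₀ (h1.symm.trans hz')
      exact (r3 z hzX).trans hz'
  have hR' : Rtr G A T ρ' := by
    refine ⟨fun x hx => ?_, fun x hx => ?_, fun x => ?_, fun x => ?_⟩
    · rw [r3 x fun h => hx (hXA h)]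
      exact hR.off x hx
    · rcases split x with h' | h' | h'
      · rw [r1 x h']; exact Or.inl (hXA (hX1 hx₁))
      · rw [r2 x h']; exact Or.inl (hXA (hX2 hx₂))
      · rw [r3 x h']; exact hR.inn x hx
    · rcases split x with h' | h' | h'
      · rw [r1 x h', r1 x₁ hx₁]
      · rw [r2 x h', r2 x₂ hx₂]
      · rw [r3 x h', r3 _ (out x h'), hR.idp]
    · rcases split x with h' | h' | h'
      · rw [r1 x h']
        have : {z | ρ' z = x₁} = X₁ := Set.ext v1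
        rw [this]; exact hc1
      · rw [r2 x h']
        have : {z | ρ' z = x₂} = X₂ := Set.ext v2
        rw [this]; exact hc2
      · rw [r3 x h']
        have hx1 : ρ x ≠ x₁ := fun h => out x h' (h ▸ hX1 hx₁)
        have hx2 : ρ x ≠ x₂ := fun h => out x h' (h ▸ hX2 hx₂)
        have : {z | ρ' z = ρ x} = {z | ρ z = ρ x} := by
          ext z
          constructor
          · exact fun hz => (v3 z _ hz hx1 hx2).2
          · intro hz
            have hz' : ρ z = ρ x := hz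
            have hzX : z ∉ X := fun h => h' (hz'.symm.trans h)
            exact (r3 z hzX).trans hz'
        rw [this]; exact hR.fib x
  have hcard : (Rr A ρ').ncard ≤ (Rr A ρ).ncard + 1 := by
    have hsub : Rr A ρ' ⊆ insert x₁ (insert x₂ (Rr A ρ \ {r₀})) := by
      rintro r ⟨hr1, hr2⟩
      rcases split r with h' | h' | h'
      · exact Or.inl ((r1 r h').symm.trans hr2).symm
      · exact Or.inr (Or.inl ((r2 r h').symm.trans hr2).symm)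
      · refine Or.inr (Or.inr ⟨⟨hr1, (r3 r h').symm.trans hr2⟩, fun h => h' ?_⟩)
        have h2 : r = r₀ := h
        rw [h2]; exact hρr₀
    have hmem : r₀ ∈ Rr A ρ := ⟨hrA, hρr₀⟩
    have h1 := Set.ncard_le_ncard hsub
    have h2 := Set.ncard_insert_le x₁ (insert x₂ (Rr A ρ \ {r₀}))
    have h3 := Set.ncard_insert_le x₂ (Rr A ρ \ {r₀})
    have h4 := Set.ncard_sdiff_singleton_add_one hmem
    omega
  obtain ⟨-, -, -, -, -, q6, q7, -, -⟩ := hQ V G Set.univ ρ'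
  have hx₁Z : x₁ ∈ Zz A ρ := ⟨hXA (hX1 hx₁), by rw [hρx₁]; exact hrA⟩
  refine ⟨ρ', hR', fun x y h => ?_, hcard, fun t ht => ?_, fun r => ?_⟩
  · rcases split y with h' | h' | h'
    · rw [r1 y h'] at h
      have h1 : ρ x = r₀ := hX1 ((v1 x).1 h)
      have h2 : ρ y = r₀ := hX1 h'
      rw [h1, h2]
    · rw [r2 y h'] at h
      have h1 : ρ x = r₀ := hX2 ((v2 x).1 h)
      have h2 : ρ y = r₀ := hX2 h'
      rw [h1, h2]
    · rw [r3 y h'] at h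
      exact (v3 x _ h (fun h => out y h' (h ▸ hX1 hx₁)) (fun h => out y h' (h ▸ hX2 hx₂))).2
  · obtain ⟨Z, hZ, hc, hxZ, htch⟩ := hU.1 x₁ hx₁Z t ht
    refine q6 A T s t hR' hsA hsT ht hAT (Or.inr ⟨Z, by rw [hZz]; exact hZ, hc,
      ⟨s, rfl, x₁, hxZ, hx₁N.2⟩, ?_⟩)
    rw [hTp t ht]; exact htch
  · by_cases hr1 : r = x₁
    · obtain ⟨t, ht, Z, hZ, hZd, hc, h1, h2⟩ := Spl.link d s12
      refine ⟨t, ht, q7 A T s t r hR' hsA hsT ht hAT (Or.inr ⟨Z, fun z hz => ⟨?_, fun h => ?_⟩, hc,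
        h1, ?_⟩)⟩
      · rw [hZz]; exact hZ hz
      · have h' : ρ' z = r := h
        rw [hr1] at h'
        exact hZd.le_bot ⟨hz, (v1 z).1 h'⟩
      · rw [hTp t ht]; exact h2
    by_cases hr2 : r = x₂
    · obtain ⟨t, ht, Z, hZ, hZd, hc, h1, h2⟩ := Spl.link d s21
      refine ⟨t, ht, q7 A T s t r hR' hsA hsT ht hAT (Or.inr ⟨Z, fun z hz => ⟨?_, fun h => ?_⟩, hc,
        h1, ?_⟩)⟩
      · rw [hZz]; exact hZ hz
      · have h' : ρ' z = r := h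
        rw [hr2] at h'
        exact hZd.le_bot ⟨hz, (v2 z).1 h'⟩
      · rw [hTp t ht]; exact h2
    by_cases hr0 : r = r₀
    · obtain ⟨t, ht⟩ : T.Nonempty := Set.nonempty_of_ncard_ne_zero (by omega)
      obtain ⟨Z, hZ, hc, hxZ, htch⟩ := hU.1 x₁ hx₁Z t ht
      refine ⟨t, ht, q7 A T s t r hR' hsA hsT ht hAT (Or.inr ⟨Z, fun z hz => ⟨?_, fun h => ?_⟩, hc,
        ⟨s, rfl, x₁, hxZ, hx₁N.2⟩, ?_⟩)⟩
      · rw [hZz]; exact hZ hz
      · obtain ⟨h3, h4⟩ := v3 z r h hr1 hr2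
        exact h3 (h4.trans hr0)
      · rw [hTp t ht]; exact htch
    · obtain ⟨Z, hZ, hc, hxZ, z, hz, w, hw, hzw⟩ := hU.2 r x₁ hx₁Z (by
        rw [hρx₁]; exact fun h => hr0 h.symm)
      refine ⟨ρ w, hw, q7 A T s (ρ w) r hR' hsA hsT hw hAT (Or.inr ⟨Z, fun z hz => ⟨?_, fun h => ?_⟩,
        hc, ⟨s, rfl, x₁, hxZ, hx₁N.2⟩, ?_⟩)⟩
      · rw [hZz]; exact (hZ hz).1
      · exact (hZ hz).2 (v3 z r h hr1 hr2).2
      · rw [hTp _ hw]; exact ⟨z, hz, w, rfl, hzw⟩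

end Pool.Agent.Helper4.TS
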